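import Pool.Agent.H714Z.Odd.Main

/-!
# ODD-PATHS is in coNP if and only if NP = coNP
-/

namespace Pool.Agent.Results.MP_636301_lc.AOddPathsCoNP

open Pool.Agent.NPC Pool.Agent.H714Z.Odd

/-- ODD-PATHS belongs to `coNP` exactly when `NP = coNP`. -/
theorem result : InCoNP (lang OddPaths) ↔ ∀ L : Set (List Bool), InNP L ↔ InCoNP L :=
  inCoNP_iff

end Pool.Agent.Results.MP_636301_lc.AOddPathsCoNP
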